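import Pool.Agent.Lib.MP_43832e_gt.Final

/-!
# The Hofer distance between polygonal billiards is semi-algebraic

The definitions are in `Pool/Agent/Lib/MP_43832e_gt/Defs.lean`.
-/

namespace Pool.Agent.Results.MP_43832e_gt.HoferPolygons

open MP43832 Set Filter Topology

/-- The Hofer distance of the billiard ball maps of two marked tables is the oscillation of the
difference of the chord lengths (and is attained, by a path which extends continuously up to the
boundary jointly in all variables); hence the limit function on marked polygons exists and is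
semi-algebraic. -/
theorem result :
    (∀ α β : Table, dH α β = ENNReal.ofReal (osc α.γ β.γ) ∧
      ∃ P : HamPath α β, P.Cont ∧ P.length = dH α β) ∧
    ∀ (n m : ℕ) [NeZero n] [NeZero m], 3 ≤ n → 3 ≤ m →
      ∃ ρ : (Coord n → ℝ) → (Coord m → ℝ) → ℝ,
        (∀ x y, IsMP x → IsMP y →
          (∃ (c d : ℝ → ℂ) (α β : ℕ → Table), IsArc x c ∧ IsArc y d ∧
            TendstoUniformly (fun i => (α i).γ) c atTop ∧
            TendstoUniformly (fun i => (β i).γ) d atTop) ∧
          ∀ (c d : ℝ → ℂ) (α β : ℕ → Table), IsArc x c → IsArc y d →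
            TendstoUniformly (fun i => (α i).γ) c atTop →
            TendstoUniformly (fun i => (β i).γ) d atTop →
            0 ≤ ρ x y ∧ ρ x y = osc c d ∧
            Tendsto (fun i => dH (α i) (β i)) atTop (𝓝 (ENNReal.ofReal (ρ x y)))) ∧
        SemiAlg {z : (Coord n ⊕ Coord m) ⊕ Unit → ℝ |
          IsMP (fun i => z (Sum.inl (Sum.inl i))) ∧ IsMP (fun i => z (Sum.inl (Sum.inr i))) ∧
          z (Sum.inr ()) =
            ρ (fun i => z (Sum.inl (Sum.inl i))) (fun i => z (Sum.inl (Sum.inr i)))} :=
  MP43832.main

end Pool.Agent.Results.MP_43832e_gt.HoferPolygons
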